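import Pool.Agent.MP_49fc99_mp.H40.JW

/-! The code and the lower bound on the simultaneous error. -/

set_option autoImplicit false
set_option linter.unusedSectionVars false

namespace Pool.Agent.MP_49fc99_mp.H40

open Matrix Finset
open scoped ComplexOrder

variable {n : ℕ}

/-- Cyclic successor. -/
def nxt (i : Fin n) : Fin n := if h : i.val + 1 < n then ⟨i.val + 1, h⟩ else ⟨0, i.pos⟩

theorem nxt_val (i : Fin n) : (nxt i).val = if i.val + 1 < n then i.val + 1 else 0 := by
  unfold nxt; split_ifs <;> rfl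

theorem nxt_ne (hn : 3 ≤ n) (i : Fin n) : nxt i ≠ i := by
  intro h
  have := congrArg Fin.val h
  rw [nxt_val] at this
  have := i.2
  split_ifs at * <;> omega

theorem nxt_inj {i j : Fin n} (h : nxt i = nxt j) : i = j := by
  have := congrArg Fin.val h
  rw [nxt_val, nxt_val] at this
  have := i.2
  have := j.2
  apply Fin.ext
  split_ifs at * <;> omega

theorem nxt_nxt_ne (hn : 3 ≤ n) (i : Fin n) : nxt (nxt i) ≠ i := by
  intro h
  have h1 := congrArg Fin.val h
  rw [nxt_val, nxt_val] at h1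
  have := i.2
  split_ifs at * <;> omega

theorem exists_dir (hn : 3 ≤ n) :
    ∃ f : (Fin n → Bool) → Fin n, ∀ i, ∃ x, f x = i ∧ f (flp i x) = i := by
  classical
  let P : (Fin n → Bool) → Fin n → Prop := fun x i => ∀ j, j ≠ i → x j = decide (j = nxt i)
  have uniq : ∀ x i i', P x i → P x i' → i = i' := by
    intro x i i' h h'
    by_contra hne
    have a1 : nxt i = i' := by
      by_contra hc
      have e1 := h (nxt i) (nxt_ne hn i)
      have e2 := h' (nxt i) hc
      rw [e1] at e2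
      simp only [decide_true, true_eq_decide_iff] at e2
      exact hne (nxt_inj e2)
    have a2 : nxt i' = i := by
      by_contra hc
      have e1 := h' (nxt i') (nxt_ne hn i')
      have e2 := h (nxt i') hc
      rw [e1] at e2
      simp only [decide_true, true_eq_decide_iff] at e2
      exact hne (nxt_inj e2).symm
    exact nxt_nxt_ne hn i (by rw [a1, a2])
  let f : (Fin n → Bool) → Fin n := fun x => if h : ∃ i, P x i then h.choose else ⟨0, by omega⟩
  have hf : ∀ x i, P x i → f x = i := by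
    intro x i h
    have h' : ∃ i, P x i := ⟨i, h⟩
    simp only [f, dif_pos h']
    exact uniq x _ _ h'.choose_spec h
  refine ⟨f, fun i => ⟨fun j => decide (j = nxt i), hf _ _ fun j _ => rfl, hf _ _ fun j hj => ?_⟩⟩
  rw [flp_ne hj]

/-- The classical part of the state. -/
noncomputable def GG (q : ℝ) (i : Fin n) (x : Fin n → Bool) :
    Matrix (Fin n → Bool) (Fin n → Bool) ℂ :=
  Matrix.diagonal fun z => (if z = x then ((3 * q - 2 : ℝ) : ℂ) else 0)
    + (if z = flp i x then ((1 - q : ℝ) : ℂ) else 0)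

/-- The quantum part of the state. -/
noncomputable def BB (q : ℝ) (i : Fin n) (b : Bool) : Matrix (Fin n → Bool) (Fin n → Bool) ℂ :=
  ((2 * (1 - q) / 2 ^ n : ℝ) : ℂ) • (1 + sg b • JW i)

/-- The state. -/
noncomputable def rho (q : ℝ) (i : Fin n) (x : Fin n → Bool) :
    Matrix ((Fin n → Bool) ⊕ (Fin n → Bool)) ((Fin n → Bool) ⊕ (Fin n → Bool)) ℂ :=
  Matrix.fromBlocks (GG q i x) 0 0 (BB q i (x i))

/-- The measurement for bit `j`. -/
noncomputable def meas (j : Fin n) (b : Bool) :
    Matrix ((Fin n → Bool) ⊕ (Fin n → Bool)) ((Fin n → Bool) ⊕ (Fin n → Bool)) ℂ :=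
  Matrix.fromBlocks (Matrix.diagonal fun z => if z j = b then 1 else 0) 0 0
    ((1 / 2 : ℂ) • (1 + sg b • JW j))

theorem trace_mul_GG (R : Matrix (Fin n → Bool) (Fin n → Bool) ℂ) (q : ℝ) (i : Fin n)
    (x : Fin n → Bool) :
    (R * GG q i x).trace = ((3 * q - 2 : ℝ) : ℂ) * R x x
      + ((1 - q : ℝ) : ℂ) * R (flp i x) (flp i x) := by
  unfold GG Matrix.trace
  simp only [Matrix.diag_apply, Matrix.mul_diagonal, mul_add, Finset.sum_add_distrib, mul_ite,
    mul_zero, Finset.sum_ite_eq', Finset.mem_univ, if_true]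
  ring

theorem trace_mul_BB (R : Matrix (Fin n → Bool) (Fin n → Bool) ℂ) (q : ℝ) (i : Fin n) (b : Bool) :
    (R * BB q i b).trace = ((2 * (1 - q) / 2 ^ n : ℝ) : ℂ) *
      (R.trace + sg b * (R * JW i).trace) := by
  unfold BB
  rw [Matrix.mul_smul, Matrix.mul_add, Matrix.mul_one, Matrix.mul_smul, Matrix.trace_smul,
    Matrix.trace_add, Matrix.trace_smul, smul_eq_mul, smul_eq_mul]

theorem trace_one_cube : (1 : Matrix (Fin n → Bool) (Fin n → Bool) ℂ).trace = 2 ^ n := by
  simp

theorem ofReal_nonneg' {r : ℝ} (h : 0 ≤ r) : (0 : ℂ) ≤ (r : ℂ) := by exact_mod_cast h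

theorem rho_psd {q : ℝ} (h1 : 3 / 4 ≤ q) (h2 : q ≤ 1) (i : Fin n) (x : Fin n → Bool) :
    (rho q i x).PosSemidef := by
  apply posSemidef_fromBlocks
  · apply Matrix.PosSemidef.diagonal
    intro z
    apply add_nonneg
    · split_ifs
      · exact ofReal_nonneg' (by linarith)
      · exact le_rfl
    · split_ifs
      · exact ofReal_nonneg' (by linarith)
      · exact le_rfl
  · refine (posSemidef_one_add (JW_herm i) (JW_mul_self i) _).smul (ofReal_nonneg' ?_)
    have : 0 ≤ 1 - q := by linarith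
    positivity

theorem rho_trace (q : ℝ) (i : Fin n) (x : Fin n → Bool) : (rho q i x).trace = 1 := by
  have h := trace_mul_fromBlocks 1 (GG q i x) (BB q i (x i))
  rw [Matrix.one_mul] at h
  rw [rho, h, trace_mul_GG, trace_mul_BB]
  simp only [← Matrix.fromBlocks_one, Matrix.toBlocks_fromBlocks₁₁, Matrix.toBlocks_fromBlocks₂₂,
    Matrix.one_mul, JW_trace, trace_one_cube, Matrix.one_apply_eq]
  push_cast
  field_simp
  ring

theorem meas_psd (j : Fin n) (b : Bool) : (meas j b).PosSemidef := by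
  apply posSemidef_fromBlocks
  · apply Matrix.PosSemidef.diagonal
    intro z
    dsimp only
    split_ifs
    · exact zero_le_one
    · exact le_rfl
  · exact (posSemidef_one_add (JW_herm j) (JW_mul_self j) _).smul
      (by rw [Complex.nonneg_iff]; constructor <;> norm_num)

theorem meas_sum (j : Fin n) : ∑ b, meas j b = 1 := by
  rw [Fintype.sum_bool, meas, meas, Matrix.fromBlocks_add, ← Matrix.fromBlocks_one]
  congr 1
  · rw [Matrix.diagonal_add, ← Matrix.diagonal_one]
    congr 1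
    funext z
    cases z j <;> simp
  · simp
  · simp
  · simp only [sg, if_true, Bool.false_eq_true, if_false]
    module

theorem meas_success (q : ℝ) (i j : Fin n) (x : Fin n → Bool) :
    (meas j (x j) * rho q i x).trace = (q : ℂ) := by
  rw [rho, trace_mul_fromBlocks, trace_mul_GG, trace_mul_BB, meas]
  simp only [Matrix.toBlocks_fromBlocks₁₁, Matrix.toBlocks_fromBlocks₂₂, Matrix.diagonal_apply_eq,
    if_true, Matrix.smul_mul, Matrix.add_mul, Matrix.one_mul, Matrix.trace_smul, Matrix.trace_add,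
    JW_trace, trace_one_cube, smul_eq_mul]
  by_cases h : j = i
  · subst h
    have : ¬ (flp j x j = x j) := by rw [flp_same]; cases x j <;> simp
    rw [if_neg this, JW_mul_self, trace_one_cube]
    have h2 := sg_mul_self (x j)
    push_cast
    field_simp
    linear_combination (1 - (q : ℂ)) * 2 ^ n * h2
  · rw [flp_ne h, if_pos rfl, JW_trace_mul h]
    push_cast
    field_simp
    ring

theorem sg_re_mul (b : Bool) (z : ℂ) : (sg b * z).re = (sg b).re * z.re := by
  cases b <;> simp [sg]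

theorem pair_bound {q : ℝ} (h1 : 3 / 4 ≤ q)
    (Q : (Fin n → Bool) →
      Matrix ((Fin n → Bool) ⊕ (Fin n → Bool)) ((Fin n → Bool) ⊕ (Fin n → Bool)) ℂ)
    (hQ : ∀ y, (Q y).PosSemidef) (hs : ∑ y, Q y = 1) (i : Fin n) (x : Fin n → Bool) :
    4 * (1 - q) - (2 * (1 - q) / 2 ^ n) * ∑ y, (sg (y i) * ((Q y).toBlocks₂₂ * JW i).trace).re ≤
      ∑ y with y i ≠ x i, ((Q y * rho q i x).trace).re
        + ∑ y with y i ≠ flp i x i, ((Q y * rho q i (flp i x)).trace).re := by
  set c : ℝ := 2 * (1 - q) / 2 ^ n with hc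
  let g : (Fin n → Bool) → (Fin n → Bool) → ℝ := fun y z => (Q y (Sum.inl z) (Sum.inl z)).re
  have g0 : ∀ y z, 0 ≤ g y z := fun y z => (Complex.nonneg_iff.mp (hQ y).diag_nonneg).1
  have g1 : ∀ z, ∑ y, g y z = 1 := by
    intro z
    have := congrArg (fun M => (M (Sum.inl z) (Sum.inl z)).re) hs
    simpa [Matrix.sum_apply, g] using this
  have r1 : ∑ y, (((Q y).toBlocks₂₂).trace).re = 2 ^ n := by
    have e : ∑ y, (Q y).toBlocks₂₂ = 1 := by
      ext a b
      have := congrArg (fun M => M (Sum.inr a) (Sum.inr b)) hs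
      simpa [Matrix.sum_apply, Matrix.toBlocks₂₂, Matrix.one_apply] using this
    rw [← Complex.re_sum, ← Matrix.trace_sum, e, trace_one_cube]
    norm_cast
  have val : ∀ y z, ((Q y * rho q i z).trace).re = (3 * q - 2) * g y z + (1 - q) * g y (flp i z)
      + c * ((((Q y).toBlocks₂₂).trace).re + (sg (z i) * ((Q y).toBlocks₂₂ * JW i).trace).re) := by
    intro y z
    rw [rho, trace_mul_fromBlocks, trace_mul_GG, trace_mul_BB, Complex.add_re, Complex.add_re,
      Complex.re_ofReal_mul, Complex.re_ofReal_mul, Complex.re_ofReal_mul, Complex.add_re]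
    rfl
  rw [Finset.sum_filter, Finset.sum_filter, ← Finset.sum_add_distrib]
  have lower : ∀ y, (1 - q) * (g y x + g y (flp i x)) + c * ((((Q y).toBlocks₂₂).trace).re
      - (sg (y i) * ((Q y).toBlocks₂₂ * JW i).trace).re) ≤
      (if y i ≠ x i then ((Q y * rho q i x).trace).re else 0)
        + (if y i ≠ flp i x i then ((Q y * rho q i (flp i x)).trace).re else 0) := by
    intro y
    have a1 := g0 y x
    have a2 := g0 y (flp i x)
    rw [val, val, flp_flp, flp_same]
    by_cases h : y i = x i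
    · have h' : y i ≠ !x i := by rw [h]; cases x i <;> simp
      rw [if_neg (not_not.mpr h), if_pos h', sg_not, h, neg_mul, Complex.neg_re]
      nlinarith
    · have h' : y i = !x i := by
        revert h; cases x i <;> cases y i <;> simp
      rw [if_pos h, if_neg (not_not.mpr h'), h', sg_not, neg_mul, Complex.neg_re]
      nlinarith
  refine le_trans (le_of_eq ?_) (Finset.sum_le_sum fun y _ => lower y)
  rw [Finset.sum_add_distrib, ← Finset.mul_sum, ← Finset.mul_sum, Finset.sum_add_distrib,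
    Finset.sum_sub_distrib, g1, g1, r1, hc]
  field_simp
  ring

theorem total_bound {k : ℕ} (hk : 0 < k) (hn : n = k ^ 2)
    (Q : (Fin n → Bool) →
      Matrix ((Fin n → Bool) ⊕ (Fin n → Bool)) ((Fin n → Bool) ⊕ (Fin n → Bool)) ℂ)
    (hQ : ∀ y, (Q y).PosSemidef) (hs : ∑ y, Q y = 1) :
    ∑ i, ∑ y, (sg (y i) * ((Q y).toBlocks₂₂ * JW i).trace).re ≤ k * 2 ^ n := by
  have r1 : ∑ y, (((Q y).toBlocks₂₂).trace).re = 2 ^ n := by
    have e : ∑ y, (Q y).toBlocks₂₂ = 1 := by
      ext a b
      have := congrArg (fun M => M (Sum.inr a) (Sum.inr b)) hs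
      simpa [Matrix.sum_apply, Matrix.toBlocks₂₂, Matrix.one_apply] using this
    rw [← Complex.re_sum, ← Matrix.trace_sum, e, trace_one_cube]
    norm_cast
  rw [Finset.sum_comm, ← r1, Finset.mul_sum]
  refine Finset.sum_le_sum fun y _ => ?_
  have hR : ((Q y).toBlocks₂₂).PosSemidef := (hQ y).submatrix Sum.inr
  have h := trace_mul_le hR (JS_herm y) (k := k) (by exact_mod_cast hk)
    (by rw [JS_mul_self, hn]; push_cast; rfl)
  refine le_trans (le_of_eq ?_) h
  rw [← Complex.re_sum, JS, Matrix.mul_sum, Matrix.trace_sum]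
  simp only [Matrix.mul_smul, Matrix.trace_smul, smul_eq_mul]

theorem exists_bad {q c : ℝ} (h1 : 3 / 4 ≤ q) (h2 : q ≤ 1) {k : ℕ} (hk : 0 < k) (hn : n = k ^ 2)
    (hc : c < 2 * (1 - q) - (1 - q) / k)
    (f : (Fin n → Bool) → Fin n) (hf : ∀ i, ∃ x, f x = i ∧ f (flp i x) = i)
    (Q : (Fin n → Bool) →
      Matrix ((Fin n → Bool) ⊕ (Fin n → Bool)) ((Fin n → Bool) ⊕ (Fin n → Bool)) ℂ)
    (hQ : ∀ y, (Q y).PosSemidef) (hs : ∑ y, Q y = 1) :
    ∃ x i, c < ∑ y with y i ≠ x i, ((Q y * rho q (f x) x).trace).re := by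
  by_contra hcon
  push Not at hcon
  have hi : ∀ i : Fin n, 4 * (1 - q) - (2 * (1 - q) / 2 ^ n) *
      ∑ y, (sg (y i) * ((Q y).toBlocks₂₂ * JW i).trace).re ≤ 2 * c := by
    intro i
    obtain ⟨x, hx1, hx2⟩ := hf i
    have a1 := hcon x i
    have a2 := hcon (flp i x) i
    rw [hx1] at a1
    rw [hx2] at a2
    have a3 := pair_bound h1 Q hQ hs i x
    linarith
  have hsum := Finset.sum_le_sum fun i (_ : i ∈ (univ : Finset (Fin n))) => hi i
  rw [Finset.sum_sub_distrib, ← Finset.mul_sum] at hsum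
  simp only [Finset.sum_const, Finset.card_univ, Fintype.card_fin, nsmul_eq_mul] at hsum
  have ht := total_bound hk hn Q hQ hs
  have hq : 0 ≤ 1 - q := by linarith
  have hc0 : 0 ≤ 2 * (1 - q) / 2 ^ n := by positivity
  have ht2 := mul_le_mul_of_nonneg_left ht hc0
  have e : 2 * (1 - q) / 2 ^ n * (k * 2 ^ n) = 2 * (1 - q) * k := by field_simp
  rw [e, Finset.mul_sum] at ht2
  have hk' : (0 : ℝ) < k := by exact_mod_cast hk
  have hn' : (n : ℝ) = (k : ℝ) ^ 2 := by rw [hn]; push_cast; rfl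
  have e2 : (1 - q) / k * (k : ℝ) ^ 2 = (1 - q) * k := by field_simp
  have hc2 := mul_lt_mul_of_pos_right hc (pow_pos hk' 2)
  rw [sub_mul, e2] at hc2
  rw [hn'] at hsum
  nlinarith

end Pool.Agent.MP_49fc99_mp.H40
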