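import Mathlib

/-! Jordan-Wigner matrices: `n` anticommuting Hermitian involutions on `Fin n → Bool`,
and block diagonal matrices. -/

set_option autoImplicit false
set_option linter.unusedSectionVars false

namespace Pool.Agent.MP_49fc99_mp.H40

open Matrix Finset
open scoped ComplexOrder

/-- The sign attached to a bit. -/
def sg (b : Bool) : ℂ := if b then -1 else 1

theorem sg_not (b : Bool) : sg (!b) = -sg b := by cases b <;> simp [sg]

theorem sg_mul_self (b : Bool) : sg b * sg b = 1 := by cases b <;> simp [sg]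

theorem star_sg (b : Bool) : star (sg b) = sg b := by cases b <;> simp [sg]

variable {n : ℕ}

/-- Flip bit `i`. -/
def flp (i : Fin n) (z : Fin n → Bool) : Fin n → Bool := Function.update z i (!z i)

theorem flp_same (i : Fin n) (z : Fin n → Bool) : flp i z i = !z i := by simp [flp]

theorem flp_ne {i j : Fin n} (h : j ≠ i) (z : Fin n → Bool) : flp i z j = z j := by
  simp [flp, Function.update_of_ne h]

theorem flp_flp (i : Fin n) (z : Fin n → Bool) : flp i (flp i z) = z := by
  funext j
  by_cases h : j = i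
  · subst h; simp [flp_same]
  · simp [flp_ne h]

theorem flp_comm (i j : Fin n) (z : Fin n → Bool) : flp i (flp j z) = flp j (flp i z) := by
  by_cases hij : i = j
  · rw [hij]
  funext k
  by_cases h : k = i
  · subst h
    rw [flp_same, flp_ne hij, flp_ne hij, flp_same]
  · by_cases h' : k = j
    · subst h'
      rw [flp_same, flp_ne h, flp_ne h, flp_same]
    · rw [flp_ne h, flp_ne h', flp_ne h', flp_ne h]

theorem flp_ne_self (i : Fin n) (z : Fin n → Bool) : flp i z ≠ z := by
  intro h
  have := congrFun h i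
  rw [flp_same] at this
  cases hz : z i <;> simp [hz] at this

/-- The Jordan-Wigner sign. -/
def jsgn (i : Fin n) (z : Fin n → Bool) : ℂ := ∏ j ∈ univ.filter (· < i), sg (z j)

theorem jsgn_flp (i j : Fin n) (z : Fin n → Bool) :
    jsgn j (flp i z) = (if i < j then -1 else 1) * jsgn j z := by
  unfold jsgn
  split_ifs with h
  · have hi : i ∈ univ.filter (· < j) := by simp [h]
    rw [← Finset.mul_prod_erase _ _ hi, ← Finset.mul_prod_erase _ (fun k => sg (z k)) hi,
      flp_same, sg_not]
    have : ∏ k ∈ (univ.filter (· < j)).erase i, sg (flp i z k)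
        = ∏ k ∈ (univ.filter (· < j)).erase i, sg (z k) :=
      Finset.prod_congr rfl fun k hk => by rw [flp_ne (mem_erase.mp hk).1]
    rw [this]; ring
  · rw [one_mul]
    refine Finset.prod_congr rfl fun k hk => ?_
    have : k ≠ i := by
      rintro rfl
      exact h (mem_filter.mp hk).2
    rw [flp_ne this]

theorem jsgn_mul_self (i : Fin n) (z : Fin n → Bool) : jsgn i z * jsgn i z = 1 := by
  unfold jsgn
  rw [← Finset.prod_mul_distrib]
  exact Finset.prod_eq_one fun j _ => sg_mul_self _

theorem star_jsgn (i : Fin n) (z : Fin n → Bool) : star (jsgn i z) = jsgn i z := by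
  unfold jsgn
  rw [star_prod]
  exact Finset.prod_congr rfl fun j _ => star_sg _

/-- The Jordan-Wigner matrix. -/
def JW (i : Fin n) : Matrix (Fin n → Bool) (Fin n → Bool) ℂ :=
  fun z w => if w = flp i z then jsgn i z else 0

theorem JW_mul_apply (i j : Fin n) (z w : Fin n → Bool) :
    (JW i * JW j) z w = if w = flp j (flp i z) then jsgn i z * jsgn j (flp i z) else 0 := by
  rw [Matrix.mul_apply, Finset.sum_eq_single (flp i z)]
  · simp [JW]
  · intro u _ hu; simp [JW, hu]
  · simp

theorem JW_mul_self (i : Fin n) : JW i * JW i = 1 := by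
  ext z w
  rw [JW_mul_apply, flp_flp, jsgn_flp, Matrix.one_apply]
  simp [jsgn_mul_self, eq_comm]

theorem JW_anticomm {i j : Fin n} (h : i ≠ j) : JW i * JW j = -(JW j * JW i) := by
  ext z w
  rw [Matrix.neg_apply, JW_mul_apply, JW_mul_apply, flp_comm i j, jsgn_flp, jsgn_flp]
  rcases lt_or_gt_of_ne h with h' | h'
  · simp only [h', h'.not_gt, if_true, if_false]
    split_ifs <;> ring
  · simp only [h', h'.not_gt, if_true, if_false]
    split_ifs <;> ring

theorem JW_herm (i : Fin n) : (JW i)ᴴ = JW i := by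
  ext z w
  rw [Matrix.conjTranspose_apply]
  unfold JW
  by_cases h : w = flp i z
  · subst h
    rw [flp_flp, jsgn_flp]
    simp [star_jsgn, -RCLike.star_def]
  · have h' : ¬ z = flp i w := by
      rintro rfl
      exact h (flp_flp _ _).symm
    simp [h, h']

theorem JW_trace (i : Fin n) : (JW i).trace = 0 := by
  unfold Matrix.trace
  refine Finset.sum_eq_zero fun z _ => ?_
  simp [JW, (flp_ne_self i z).symm]

theorem JW_trace_mul {i j : Fin n} (h : i ≠ j) : (JW i * JW j).trace = 0 := by
  have h1 := Matrix.trace_mul_comm (JW i) (JW j)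
  have h2 := congrArg Matrix.trace (JW_anticomm h)
  rw [Matrix.trace_neg, ← h1] at h2
  linear_combination (1 / 2 : ℂ) * h2

/-- The signed sum of the Jordan-Wigner matrices. -/
noncomputable def JS (y : Fin n → Bool) : Matrix (Fin n → Bool) (Fin n → Bool) ℂ :=
  ∑ i, sg (y i) • JW i

theorem JS_herm (y : Fin n → Bool) : (JS y)ᴴ = JS y := by
  unfold JS
  rw [Matrix.conjTranspose_sum]
  refine Finset.sum_congr rfl fun i _ => ?_
  rw [Matrix.conjTranspose_smul, JW_herm, star_sg]

theorem JS_mul_self (y : Fin n → Bool) : JS y * JS y = (n : ℂ) • 1 := by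
  have h1 : JS y * JS y = ∑ i, ∑ j, (sg (y i) * sg (y j)) • (JW i * JW j) := by
    unfold JS
    rw [Finset.sum_mul_sum]
    simp only [smul_mul_smul_comm]
  have h2 : JS y * JS y = ∑ i, ∑ j, (sg (y i) * sg (y j)) • (JW j * JW i) := by
    rw [h1, Finset.sum_comm]
    refine Finset.sum_congr rfl fun i _ => Finset.sum_congr rfl fun j _ => ?_
    rw [mul_comm (sg (y j))]
  have h3 : JS y * JS y + JS y * JS y = (n : ℂ) • 1 + (n : ℂ) • 1 := by
    nth_rewrite 1 [h1]
    rw [h2, ← Finset.sum_add_distrib]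
    have : ∀ i : Fin n, ∑ j, (sg (y i) * sg (y j)) • (JW i * JW j)
        + ∑ j, (sg (y i) * sg (y j)) • (JW j * JW i) = 1 + 1 := by
      intro i
      rw [← Finset.sum_add_distrib, Finset.sum_eq_single i]
      · rw [sg_mul_self, JW_mul_self, one_smul]
      · intro j _ hj
        rw [JW_anticomm hj, smul_neg, add_neg_cancel]
      · simp
    simp only [this, Finset.sum_const, Finset.card_univ, Fintype.card_fin, smul_add,
      Nat.cast_smul_eq_nsmul]
  have h4 : (2 : ℂ) • (JS y * JS y) = (2 : ℂ) • ((n : ℂ) • 1) := by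
    rw [two_smul, two_smul, h3]
  exact smul_right_injective _ (two_ne_zero) h4

section General

variable {D D' : Type*} [Fintype D] [DecidableEq D] [Fintype D'] [DecidableEq D']

theorem trace_mul_nonneg_of_sq {R T : Matrix D D ℂ} (hR : R.PosSemidef) (hT : Tᴴ = T) :
    0 ≤ ((R * (T * T)).trace).re := by
  have h := (hR.mul_mul_conjTranspose_same T).trace_nonneg
  rw [hT, Matrix.trace_mul_cycle, Matrix.trace_mul_comm] at h
  exact (Complex.nonneg_iff.mp h).1

theorem trace_mul_le {R S : Matrix D D ℂ} (hR : R.PosSemidef) (hS : Sᴴ = S) {k : ℝ} (hk : 0 < k)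
    (hSS : S * S = ((k : ℂ) ^ 2) • 1) : ((R * S).trace).re ≤ k * (R.trace).re := by
  have hT : ((k : ℂ) • (1 : Matrix D D ℂ) - S)ᴴ = (k : ℂ) • 1 - S := by
    rw [Matrix.conjTranspose_sub, Matrix.conjTranspose_smul, hS]; simp
  have h := trace_mul_nonneg_of_sq hR hT
  have e : ((k : ℂ) • (1 : Matrix D D ℂ) - S) * ((k : ℂ) • 1 - S)
      = (2 * (k : ℂ) ^ 2) • 1 - (2 * (k : ℂ)) • S := by
    simp only [Matrix.sub_mul, Matrix.mul_sub, Matrix.smul_mul, Matrix.mul_smul, Matrix.one_mul,
      Matrix.mul_one, hSS]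
    module
  rw [e, Matrix.mul_sub, Matrix.mul_smul, Matrix.mul_smul, Matrix.mul_one, Matrix.trace_sub,
    Matrix.trace_smul, Matrix.trace_smul, smul_eq_mul, smul_eq_mul] at h
  have e1 : (2 * (k : ℂ) ^ 2) = ((2 * k ^ 2 : ℝ) : ℂ) := by push_cast; ring
  have e2 : (2 * (k : ℂ)) = ((2 * k : ℝ) : ℂ) := by push_cast; ring
  rw [e1, e2, Complex.sub_re, Complex.re_ofReal_mul, Complex.re_ofReal_mul] at h
  have : 2 * k * ((R * S).trace).re ≤ 2 * k * (k * (R.trace).re) := by linarith
  exact le_of_mul_le_mul_left this (by linarith)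

theorem posSemidef_one_add {A : Matrix D D ℂ} (hA : Aᴴ = A) (hAA : A * A = 1) (b : Bool) :
    (1 + sg b • A).PosSemidef := by
  have h := Matrix.posSemidef_conjTranspose_mul_self (1 + sg b • A)
  have e : (1 + sg b • A)ᴴ * (1 + sg b • A) = (2 : ℂ) • (1 + sg b • A) := by
    rw [Matrix.conjTranspose_add, Matrix.conjTranspose_smul, hA, star_sg, Matrix.conjTranspose_one]
    simp only [Matrix.add_mul, Matrix.mul_add, Matrix.smul_mul, Matrix.mul_smul, Matrix.one_mul,
      Matrix.mul_one, hAA, smul_add, smul_smul, sg_mul_self]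
    module
  rw [e] at h
  have h2 := h.smul (show (0 : ℂ) ≤ 1 / 2 by
    rw [Complex.nonneg_iff]; constructor <;> norm_num)
  rw [smul_smul] at h2
  simpa using h2

theorem posSemidef_fromBlocks {A : Matrix D D ℂ} {B : Matrix D' D' ℂ} (hA : A.PosSemidef)
    (hB : B.PosSemidef) : (Matrix.fromBlocks A 0 0 B).PosSemidef := by
  have h1 := hA.mul_mul_conjTranspose_same (Matrix.fromRows (1 : Matrix D D ℂ) (0 : Matrix D' D ℂ))
  have h2 := hB.mul_mul_conjTranspose_same
    (Matrix.fromRows (0 : Matrix D D' ℂ) (1 : Matrix D' D' ℂ))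
  have h3 := h1.add h2
  convert h3 using 1
  simp only [Matrix.conjTranspose_fromRows_eq_fromCols_conjTranspose, Matrix.fromRows_mul]
  ext (a | a) (b | b) <;> simp

theorem trace_mul_fromBlocks (Q : Matrix (D ⊕ D') (D ⊕ D') ℂ) (A : Matrix D D ℂ)
    (B : Matrix D' D' ℂ) :
    (Q * Matrix.fromBlocks A 0 0 B).trace = (Q.toBlocks₁₁ * A).trace + (Q.toBlocks₂₂ * B).trace := by
  conv_lhs => rw [← Matrix.fromBlocks_toBlocks Q]
  rw [Matrix.fromBlocks_multiply]
  simp [Matrix.trace, Fintype.sum_sum_type]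

end General

end Pool.Agent.MP_49fc99_mp.H40
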